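import Mathlib

set_option autoImplicit false
open scoped Pointwise
open Finset

namespace Pool.Agent.H167Z.Sat

/-- value of a digit string in base `q` -/
def val {d : ℕ} (q : ℕ) (f : Fin d → ℕ) : ℕ := ∑ i, f i * q ^ (i : ℕ)

lemma val_eq {d : ℕ} (q : ℕ) (f : Fin d → ℕ) (h : ∀ i, f i < q) :
    val q f = (finFunctionFinEquiv (fun i => (⟨f i, h i⟩ : Fin q)) : ℕ) := by
  rw [finFunctionFinEquiv_apply]; rfl

lemma val_lt {d : ℕ} (q : ℕ) (f : Fin d → ℕ) (h : ∀ i, f i < q) : val q f < q ^ d := by
  rw [val_eq q f h]; exact Fin.is_lt _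

lemma val_inj {d : ℕ} (q : ℕ) (f g : Fin d → ℕ) (hf : ∀ i, f i < q) (hg : ∀ i, g i < q)
    (h : val q f = val q g) : f = g := by
  rw [val_eq q f hf, val_eq q g hg] at h
  have := finFunctionFinEquiv.injective (Fin.ext h)
  funext i
  have := congrFun this i
  simpa using this

lemma val_add_single {d : ℕ} (q : ℕ) (f : Fin d → ℕ) (i : Fin d) :
    val q (f + Pi.single i 1) = val q f + q ^ (i : ℕ) := by
  unfold val
  simp only [Pi.add_apply, add_mul, sum_add_distrib]
  congr 1
  rw [Finset.sum_eq_single i]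
  · simp
  · intro j _ hj; simp [Pi.single_eq_of_ne hj]
  · simp

lemma add_single_lt {d m : ℕ} (f : Fin d → ℕ) (hf : ∀ i, f i < m) (i : Fin d) :
    ∀ j, (f + Pi.single i 1 : Fin d → ℕ) j < m + 1 := by
  intro j
  have := hf j
  by_cases h : j = i
  · subst h; simp; omega
  · simp [Pi.single_eq_of_ne h]; omega

lemma cast_inj {p : ℕ} {x y : ℕ} (hx : x < p) (hy : y < p) (h : (x : ZMod p) = y) : x = y := by
  have := (ZMod.natCast_eq_natCast_iff' x y p).1 h
  rwa [Nat.mod_eq_of_lt hx, Nat.mod_eq_of_lt hy] at this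

lemma upper (m : ℕ) (hm : 0 < m) : (((m + 1) ^ (2 * m) : ℕ) : ℝ) ≤ 9 * ((m ^ (2 * m) : ℕ) : ℝ) := by
  have hm' : (0 : ℝ) < m := by exact_mod_cast hm
  have h1 : ((m : ℝ) + 1) ≤ m * Real.exp (1 / m) := by
    have := Real.add_one_le_exp (1 / (m : ℝ))
    calc ((m : ℝ) + 1) = m * (1 / m + 1) := by field_simp; ring
      _ ≤ _ := by gcongr
  have h2 : ((m : ℝ) + 1) ^ m ≤ 3 * (m : ℝ) ^ m := by
    calc ((m : ℝ) + 1) ^ m ≤ (m * Real.exp (1 / m)) ^ m := by gcongr
      _ = (m : ℝ) ^ m * Real.exp 1 := by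
        rw [mul_pow, ← Real.exp_nat_mul]; congr 2; field_simp
      _ ≤ (m : ℝ) ^ m * 3 := by
        gcongr; exact (Real.exp_one_lt_d9.trans (by norm_num)).le
      _ = _ := by ring
  push_cast
  calc ((m : ℝ) + 1) ^ (2 * m) = (((m : ℝ) + 1) ^ m) ^ 2 := by ring
    _ ≤ (3 * (m : ℝ) ^ m) ^ 2 := by gcongr
    _ = _ := by ring

lemma lower (k : ℕ) (hk : 0 < k) : 2 * k ^ (k + 1) ≤ (k + 1) ^ (k + 1) := by
  have hk' : (0 : ℝ) < k := by exact_mod_cast hk
  have h := one_add_mul_le_pow (a := 1 / (k : ℝ)) (by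
    have : (0 : ℝ) < 1 / k := by positivity
    linarith) (k + 1)
  have h2 : (2 : ℝ) ≤ 1 + ((k + 1 : ℕ) : ℝ) * (1 / k) := by
    push_cast
    have : ((k : ℝ) + 1) * (1 / k) = 1 + 1 / k := by field_simp
    rw [this]
    have : (0 : ℝ) < 1 / k := by positivity
    linarith
  have h3 : (2 : ℝ) * (k : ℝ) ^ (k + 1) ≤ ((k : ℝ) + 1) ^ (k + 1) := by
    calc (2 : ℝ) * (k : ℝ) ^ (k + 1) ≤ (1 + 1 / k) ^ (k + 1) * (k : ℝ) ^ (k + 1) := by
          gcongr; linarith
      _ = _ := by rw [← mul_pow]; congr 1; field_simp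
  exact_mod_cast h3

lemma bad_card (k : ℕ) (hk : 0 < k) (J : Finset (Fin (2 * (k + 1)))) (hJ : J.card ≤ k + 1) :
    2 * (Fintype.piFinset (fun i : Fin (2 * (k + 1)) =>
      if i ∈ J then range (k + 1) else range k)).card ≤ (k + 1) ^ (2 * (k + 1)) := by
  classical
  rw [Fintype.card_piFinset]
  have : ∏ i : Fin (2 * (k + 1)), (if i ∈ J then range (k + 1) else range k).card
      = (k + 1) ^ J.card * k ^ (2 * (k + 1) - J.card) := by
    simp only [apply_ite Finset.card, card_range]
    rw [Finset.prod_ite]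
    simp only [prod_const]
    congr 2
    · simp
    · rw [Finset.filter_not]; simp [Finset.card_univ_sdiff]
  rw [this]
  obtain ⟨r, hr⟩ : ∃ r, J.card + r = k + 1 := ⟨k + 1 - J.card, by omega⟩
  have e1 : 2 * (k + 1) - J.card = (k + 1) + r := by omega
  have e2 : 2 * (k + 1) = J.card + ((k + 1) + r) := by omega
  rw [e1, pow_add k]
  conv_rhs => rw [e2, pow_add, pow_add]
  have h1 := lower k hk
  have h2 : k ^ r ≤ (k + 1) ^ r := Nat.pow_le_pow_left (by omega) r
  calc 2 * ((k + 1) ^ J.card * (k ^ (k + 1) * k ^ r))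
      = (k + 1) ^ J.card * ((2 * k ^ (k + 1)) * k ^ r) := by ring
    _ ≤ _ := by gcongr

theorem main (c : ℕ) : ∃ p : ℕ, p.Prime ∧ ∃ A B : Finset (ZMod p), A.card = B.card ∧
    ((A + B).card : ℝ) ≤ 27 * (A.card : ℝ) ∧
    ∀ A' : Finset (ZMod p), A' ⊆ A → ∀ B' : Finset (ZMod p), B' ⊆ B →
      (1 - 1 / 100) * (A.card : ℝ) ≤ (A'.card : ℝ) → B'.card ≤ c →
      ((A' + B').card : ℝ) < (1 - 1 / 100) * ((A' + B).card : ℝ) := by
  classical
  set k := c + 1 with hk
  set m := k + 1 with hm
  set d := 2 * m with hd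
  set q := m + 1 with hq
  set N := q ^ d with hN
  set n := m ^ d with hn
  obtain ⟨p, hpN, hp⟩ := Nat.exists_infinite_primes (3 * N)
  have hnN : n ≤ N := Nat.pow_le_pow_left (by omega) d
  have hdn : d ≤ n := by
    have : d < 2 ^ d := Nat.lt_two_pow_self
    have : 2 ^ d ≤ m ^ d := Nat.pow_le_pow_left (by omega) d
    omega
  have hqi : ∀ i : Fin d, q ^ (i : ℕ) < N := fun i => Nat.pow_lt_pow_right (by omega) i.is_lt
  set F : Finset (Fin d → ℕ) := Fintype.piFinset (fun _ => range m) with hF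
  have hFm : ∀ f ∈ F, ∀ i, f i < m := by
    intro f hf i; have := Fintype.mem_piFinset.1 hf i; simpa using this
  have hFcard : F.card = n := by simp [hF, Fintype.card_piFinset, hn]
  have hvalN : ∀ f ∈ F, val q f < N := fun f hf =>
    val_lt q f (fun i => by have := hFm f hf i; omega)
  have hvalN' : ∀ f ∈ F, ∀ i : Fin d, val q f + q ^ (i : ℕ) < N := fun f hf i => by
    rw [← val_add_single]; exact val_lt q _ (add_single_lt f (hFm f hf) i)
  let φ : (Fin d → ℕ) → ZMod p := fun f => ((val q f : ℕ) : ZMod p)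
  let β : Fin d → ZMod p := fun i => ((2 * N + q ^ (i : ℕ) : ℕ) : ZMod p)
  have hφ : Set.InjOn φ F := by
    intro f hf g hg h
    have h1 := hvalN f hf
    have h2 := hvalN g hg
    exact val_inj q f g (fun i => by have := hFm f hf i; omega)
      (fun i => by have := hFm g hg i; omega) (cast_inj (by omega) (by omega) h)
  have hβ : Function.Injective β := by
    intro i j h
    have h1 := hqi i
    have h2 := hqi j
    have := cast_inj (by omega) (by omega) h
    have h3 : q ^ (i : ℕ) = q ^ (j : ℕ) := by omega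
    exact Fin.ext (Nat.pow_right_injective (by omega : 2 ≤ q) h3)
  set A := F.image φ with hA
  set B0 := (range (n - d)).image (fun x : ℕ => (x : ZMod p)) with hB0
  set B := B0 ∪ univ.image β with hB
  have hAcard : A.card = n := by rw [hA, card_image_of_injOn hφ, hFcard]
  have hBcard : B.card = n := by
    rw [hB, card_union_of_disjoint, card_image_of_injective _ hβ, hB0, card_image_of_injOn]
    · simp; omega
    · intro x hx y hy h
      simp at hx hy
      exact cast_inj (by omega) (by omega) h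
    · rw [Finset.disjoint_left]
      intro x hx hx'
      obtain ⟨y, hy, rfl⟩ := mem_image.1 hx
      obtain ⟨i, -, hi⟩ := mem_image.1 hx'
      simp at hy
      have h1 := hqi i
      have := cast_inj (by omega) (by omega) hi
      omega
  have hAB : ((A + B).card : ℝ) ≤ 27 * (n : ℝ) := by
    have hsub : A + B ⊆ (range (3 * N)).image (fun x : ℕ => (x : ZMod p)) := by
      intro z hz
      obtain ⟨a, ha, b, hb, rfl⟩ := mem_add.1 hz
      obtain ⟨f, hf, rfl⟩ := mem_image.1 ha
      rcases mem_union.1 hb with hb | hb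
      · obtain ⟨y, hy, rfl⟩ := mem_image.1 hb
        simp at hy
        refine mem_image.2 ⟨val q f + y, ?_, by simp [φ]⟩
        have := hvalN f hf
        simp; omega
      · obtain ⟨i, -, rfl⟩ := mem_image.1 hb
        refine mem_image.2 ⟨val q f + (2 * N + q ^ (i : ℕ)), ?_, by simp [φ, β]⟩
        have := hvalN' f hf i
        simp; omega
    have h1 : (A + B).card ≤ 3 * N := (card_le_card hsub).trans (card_image_le.trans (by simp))
    have h2 := upper m (by omega)
    have h3 : ((A + B).card : ℝ) ≤ 3 * (N : ℝ) := by exact_mod_cast h1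
    have h4 : (N : ℝ) ≤ 9 * (n : ℝ) := h2
    linarith
  refine ⟨p, hp, A, B, by rw [hAcard, hBcard], by rw [hAcard]; exact hAB, ?_⟩
  intro A' hA' B' hB' hA'card hB'card
  rw [hAcard] at hA'card
  set J : Finset (Fin d) := univ.filter (fun i => β i ∈ B') with hJ
  have hJcard : J.card ≤ k + 1 := by
    have : J.card ≤ B'.card :=
      card_le_card_of_injOn β (fun i hi => (mem_filter.1 hi).2) hβ.injOn
    omega
  set Bad : Finset (Fin d → ℕ) :=
    Fintype.piFinset (fun i : Fin d => if i ∈ J then range (k + 1) else range k) with hBad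
  have hBadcard : 2 * Bad.card ≤ n := bad_card k (by omega) J hJcard
  set F' := F.filter (fun f => φ f ∈ A') with hF'
  have hF'card : A'.card ≤ F'.card := by
    refine le_trans (card_le_card ?_) (card_image_le (f := φ))
    intro a ha
    obtain ⟨f, hf, rfl⟩ := mem_image.1 (hA' ha)
    exact mem_image.2 ⟨f, mem_filter.2 ⟨hf, ha⟩, rfl⟩
  set G := F' \ Bad with hG
  have hGcard : F'.card ≤ G.card + Bad.card := by rw [hG]; exact card_le_card_sdiff_add_card
  have hex : ∀ f ∈ G, ∃ i, i ∉ J ∧ f i = k := by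
    intro f hf
    obtain ⟨h1, h2⟩ := mem_sdiff.1 hf
    have h3 := hFm f (mem_filter.1 h1).1
    by_contra hcon
    push Not at hcon
    apply h2
    refine Fintype.mem_piFinset.2 (fun i => ?_)
    have h4 := h3 i
    split_ifs with hi
    · simp; omega
    · have := hcon i hi
      simp; omega
  choose! ι hιJ hιk using hex
  have key : ∀ f ∈ G, ∀ g ∈ F, ∀ j : Fin d, φ g + β j = φ f + β (ι f) → j = ι f ∧ g = f := by
    intro f hf g hg j h
    have hfF : f ∈ F := (mem_filter.1 (mem_sdiff.1 hf).1).1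
    have h1 := hvalN' f hfF (ι f)
    have h2 := hvalN' g hg j
    have h3 : ((val q g + (2 * N + q ^ (j : ℕ)) : ℕ) : ZMod p)
        = ((val q f + (2 * N + q ^ (ι f : ℕ)) : ℕ) : ZMod p) := by
      simpa [φ, β] using h
    have h4 := cast_inj (by omega) (by omega) h3
    have h5 : val q (g + Pi.single j 1) = val q (f + Pi.single (ι f) 1) := by
      rw [val_add_single, val_add_single]; omega
    have h6 := val_inj q _ _ (add_single_lt g (hFm g hg) j) (add_single_lt f (hFm f hfF) (ι f)) h5
    have h7 : j = ι f := by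
      by_contra hne
      have h8 := congrFun h6 (ι f)
      have h9 := hFm g hg (ι f)
      have h10 := hιk f hf
      simp [Pi.single_eq_of_ne (Ne.symm hne)] at h8
      omega
    subst h7
    exact ⟨rfl, add_right_cancel h6⟩
  have hmap : G.card ≤ ((A' + B) \ (A' + B')).card := by
    refine card_le_card_of_injOn (fun f => φ f + β (ι f)) ?_ ?_
    · intro f hf
      have hf' : f ∈ G := hf
      have hfF : f ∈ F := (mem_filter.1 (mem_sdiff.1 hf').1).1
      refine mem_coe.2 (mem_sdiff.2 ⟨?_, ?_⟩)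
      · exact add_mem_add (mem_filter.1 (mem_sdiff.1 hf').1).2
          (mem_union_right _ (mem_image.2 ⟨_, mem_univ _, rfl⟩))
      · intro hmem
        obtain ⟨a, ha, b, hb, hab⟩ := mem_add.1 hmem
        obtain ⟨g, hg, rfl⟩ := mem_image.1 (hA' ha)
        rcases mem_union.1 (hB' hb) with hb0 | hb1
        · obtain ⟨y, hy, rfl⟩ := mem_image.1 hb0
          simp at hy
          have h1 := hvalN' f hfF (ι f)
          have h2 := hvalN g hg
          have h3 : ((val q g + y : ℕ) : ZMod p)
              = ((val q f + (2 * N + q ^ (ι f : ℕ)) : ℕ) : ZMod p) := by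
            simpa [φ, β] using hab
          have h4 := cast_inj (by omega) (by omega) h3
          omega
        · obtain ⟨j, -, rfl⟩ := mem_image.1 hb1
          have := (key f hf' g hg j hab).1
          subst this
          exact hιJ f hf' (mem_filter.2 ⟨mem_univ _, hb⟩)
    · intro f hf g hg h
      have hf' : f ∈ G := hf
      have hg' : g ∈ G := hg
      exact (key g hg' f (mem_filter.1 (mem_sdiff.1 hf').1).1 (ι f) h).2
  have hsub : A' + B' ⊆ A' + B := add_subset_add_left hB'
  have hsd : ((A' + B) \ (A' + B')).card + (A' + B').card = (A' + B).card :=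
    card_sdiff_add_card_eq_card hsub
  have hle : ((A' + B).card : ℝ) ≤ 27 * (n : ℝ) := by
    have : (A' + B).card ≤ (A + B).card := card_le_card (add_subset_add_right hA')
    have : ((A' + B).card : ℝ) ≤ (A + B).card := by exact_mod_cast this
    linarith
  have hnpos : (0 : ℝ) < n := by
    have : 0 < n := by omega
    exact_mod_cast this
  have r1 : (2 : ℝ) * Bad.card ≤ n := by exact_mod_cast hBadcard
  have r2 : (A'.card : ℝ) ≤ F'.card := by exact_mod_cast hF'card
  have r3 : (F'.card : ℝ) ≤ G.card + Bad.card := by exact_mod_cast hGcard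
  have r4 : (G.card : ℝ) ≤ ((A' + B) \ (A' + B')).card := by exact_mod_cast hmap
  have r5 : (((A' + B) \ (A' + B')).card : ℝ) + (A' + B').card = (A' + B).card := by
    exact_mod_cast hsd
  linarith

end Pool.Agent.H167Z.Sat
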